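import Mathlib

/-!
# An unbounded function on pairs of `𝔠⁺`
-/

set_option autoImplicit false

namespace Pool.Agent.W898423

open Cardinal Set

/-- the well-order of type `𝔠⁺` -/
abbrev II : Type := (Order.succ Cardinal.continuum.{0}).ord.ToType

/-- the well-order of type `𝔠` -/
abbrev KK : Type := (Cardinal.continuum.{0}).ord.ToType

lemma mk_II : #II = Order.succ 𝔠 := by simp

lemma mk_KK : #KK = 𝔠 := by simp

lemma mk_Iio_II (x : II) : #(Iio x) ≤ 𝔠 := by
  have h := mk_Iio_lt (α := II) x (by simp)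
  rw [mk_II] at h
  exact Order.lt_succ_iff.1 h

lemma mk_Iio_KK (x : KK) : #(Iio x) < 𝔠 := by
  have h := mk_Iio_lt (α := KK) x (by simp)
  rwa [mk_KK] at h

lemma mk_Iic_II (x : II) : #(Iic x) ≤ 𝔠 := by
  have h : Iic x = Iio x ∪ {x} := by
    ext y
    simp [le_iff_lt_or_eq]
  rw [h]
  refine (mk_union_le _ _).trans ?_
  refine (add_le_add (mk_Iio_II x) (le_of_eq (mk_singleton x))).trans ?_
  exact (add_le_add le_rfl (one_le_aleph0.trans aleph0_le_continuum)).trans
    (le_of_eq (add_eq_self aleph0_le_continuum))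

/-- small sets are bounded -/
lemma bdd_of_small (S : Set II) (hS : #S ≤ 𝔠) : ∃ b : II, ∀ s ∈ S, s < b := by
  by_contra hcon
  push Not at hcon
  have h1 : (univ : Set II) ⊆ ⋃ s : S, Iic (s : II) := by
    intro b _
    obtain ⟨s, hs, hb⟩ := hcon b
    exact mem_iUnion.2 ⟨⟨s, hs⟩, hb⟩
  have h2 : #II ≤ 𝔠 := by
    rw [← mk_univ]
    refine (mk_le_mk_of_subset h1).trans ?_
    refine (mk_iUnion_le_sum_mk).trans ?_
    refine (sum_le_sum _ (fun _ : S => 𝔠) (fun s : S => mk_Iic_II (s : II))).trans ?_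
    rw [sum_const']
    refine (mul_le_mul' hS le_rfl).trans ?_
    rw [mul_eq_self aleph0_le_continuum]
  rw [mk_II] at h2
  exact absurd (Order.lt_succ 𝔠) (not_lt.2 h2)

/-- unbounded sets are large, and so have bounded subsets of size `𝔠` beyond every point -/
lemma exists_large (S : Set II) (hS : ∀ g, ∃ d, g < d ∧ d ∈ S) (g : II) :
    ∃ g', g < g' ∧ 𝔠 ≤ #(S ∩ Ioo g g' : Set II) := by
  have h1 : 𝔠 ≤ #(S ∩ Ioi g : Set II) := by
    by_contra hlt
    push Not at hlt
    obtain ⟨b, hb⟩ := bdd_of_small _ hlt.le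
    obtain ⟨d, hd, hdS⟩ := hS (max g b)
    have := hb d ⟨hdS, (le_max_left g b).trans_lt hd⟩
    exact absurd this (not_lt.2 ((le_max_right g b).trans hd.le))
  obtain ⟨T, hT, hTc⟩ := le_mk_iff_exists_subset.1 h1
  obtain ⟨b, hb⟩ := bdd_of_small T hTc.le
  obtain ⟨g', hg', -⟩ := hS (max g b)
  refine ⟨g', (le_max_left g b).trans_lt hg', ?_⟩
  refine hTc.symm.le.trans ?_
  refine mk_le_mk_of_subset fun t ht => ⟨(hT ht).1, (hT ht).2, ?_⟩
  exact (hb t ht).trans ((le_max_right g b).trans_lt hg')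

/-- limits of `ω`-sequences -/
lemma limit_lemma (Φ : II → II → Prop) (h : ∀ g, ∃ g', g < g' ∧ Φ g g') (g0 : II) :
    ∃ d, g0 < d ∧ ∀ g, g < d → ∃ g1 g2, g ≤ g1 ∧ g1 < g2 ∧ g2 < d ∧ Φ g1 g2 := by
  choose f hf hΦ using h
  set s : ℕ → II := fun k => f^[k] g0 with hs
  have hss : ∀ k, s (k + 1) = f (s k) := fun k => Function.iterate_succ_apply' f k g0
  obtain ⟨b, hb⟩ := bdd_of_small (range s) (by
    refine (mk_range_le).trans ?_
    rw [mk_nat]
    exact aleph0_le_continuum)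
  obtain ⟨d, hd, hmin⟩ := WellFounded.has_min (wellFounded_lt (α := II))
    {d | ∀ k, s k < d} ⟨b, fun k => hb _ ⟨k, rfl⟩⟩
  refine ⟨d, hd 0, fun g hg => ?_⟩
  have : ¬ ∀ k, s k < g := fun hh => hmin g hh hg
  push Not at this
  obtain ⟨k, hk⟩ := this
  exact ⟨s k, s (k + 1), hk, by rw [hss]; exact hf _, hd (k + 1), by rw [hss]; exact hΦ _⟩

/-- the derivative -/
def der (S : Set II) : Set II := {d | (∃ g, g < d) ∧ ∀ g, g < d → 𝔠 ≤ #(S ∩ Ioo g d : Set II)}

lemma der_mono_local {S T : Set II} {d : II} (h : S ∩ Iic d ⊆ T) : der S ∩ Iic d ⊆ der T := by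
  rintro x ⟨⟨hx1, hx2⟩, hx3⟩
  refine ⟨hx1, fun g hg => (hx2 g hg).trans (mk_le_mk_of_subset ?_)⟩
  rintro y ⟨hy1, hy2⟩
  exact ⟨h ⟨hy1, hy2.2.le.trans hx3⟩, hy2⟩

lemma der_iterate_mono_local {S T : Set II} {d : II} (n : ℕ) (h : S ∩ Iic d ⊆ T) :
    der^[n] S ∩ Iic d ⊆ der^[n] T := by
  induction n generalizing S T with
  | zero => simpa using h
  | succ n ih =>
    rw [Function.iterate_succ_apply, Function.iterate_succ_apply]
    exact ih (der_mono_local h)

lemma der_mono {S T : Set II} (h : S ⊆ T) : der S ⊆ der T := by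
  rintro x ⟨hx1, hx2⟩
  exact ⟨hx1, fun g hg => (hx2 g hg).trans
    (mk_le_mk_of_subset (inter_subset_inter_left _ h))⟩

lemma der_union (S T : Set II) : der (S ∪ T) = der S ∪ der T := by
  apply Subset.antisymm
  · rintro d ⟨hd1, hd2⟩
    by_contra hcon
    rw [mem_union, not_or] at hcon
    obtain ⟨h1, h2⟩ := hcon
    have h1' : ∃ g, g < d ∧ #(S ∩ Ioo g d : Set II) < 𝔠 := by
      by_contra hc
      push Not at hc
      exact h1 ⟨hd1, hc⟩
    have h2' : ∃ g, g < d ∧ #(T ∩ Ioo g d : Set II) < 𝔠 := by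
      by_contra hc
      push Not at hc
      exact h2 ⟨hd1, hc⟩
    obtain ⟨g1, hg1, h3⟩ := h1'
    obtain ⟨g2, hg2, h4⟩ := h2'
    have h5 := hd2 (max g1 g2) (max_lt hg1 hg2)
    have h6 : #((S ∪ T) ∩ Ioo (max g1 g2) d : Set II) ≤
        #(S ∩ Ioo g1 d : Set II) + #(T ∩ Ioo g2 d : Set II) := by
      refine le_trans (mk_le_mk_of_subset ?_) (mk_union_le _ _)
      rintro x ⟨hx | hx, hx'⟩
      · exact Or.inl ⟨hx, (le_max_left _ _).trans_lt hx'.1, hx'.2⟩
      · exact Or.inr ⟨hx, (le_max_right _ _).trans_lt hx'.1, hx'.2⟩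
    exact absurd (add_lt_of_lt aleph0_le_continuum h3 h4) (not_lt.2 (h5.trans h6))
  · exact union_subset (der_mono subset_union_left) (der_mono subset_union_right)

lemma der_iterate_union (n : ℕ) (S T : Set II) :
    der^[n] (S ∪ T) = der^[n] S ∪ der^[n] T := by
  induction n generalizing S T with
  | zero => rfl
  | succ n ih =>
    rw [Function.iterate_succ_apply, Function.iterate_succ_apply, Function.iterate_succ_apply,
      der_union, ih]

lemma der_empty : der (∅ : Set II) = ∅ := by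
  rw [Set.eq_empty_iff_forall_notMem]
  rintro d ⟨⟨g, hg⟩, hd⟩
  have h1 := hd g hg
  rw [empty_inter, mk_eq_zero] at h1
  exact absurd h1 (not_le.2 (aleph0_pos.trans_le aleph0_le_continuum))

lemma der_iterate_empty (n : ℕ) : der^[n] (∅ : Set II) = ∅ := by
  induction n with
  | zero => rfl
  | succ n ih => rw [Function.iterate_succ_apply, der_empty, ih]

lemma der_iterate_biUnion (n : ℕ) (b : Finset II) (F : II → Set II) :
    der^[n] (⋃ y ∈ b, F y) = ⋃ y ∈ b, der^[n] (F y) := by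
  classical
  induction b using Finset.induction_on with
  | empty => simp [der_iterate_empty]
  | insert a b ha ih => rw [Finset.set_biUnion_insert, Finset.set_biUnion_insert,
      der_iterate_union, ih]

/-- locality of the derivative -/
lemma der_local {S T : Set II} {g d : II}
    (h : ∀ x, g < x → x < d → (x ∈ S → x ∈ T)) :
    ∀ x, g < x → x ≤ d → (x ∈ der S → x ∈ der T) := by
  rintro x hgx hxd ⟨hx1, hx2⟩
  refine ⟨hx1, fun g' hg' => ?_⟩
  refine (hx2 (max g g') (max_lt hgx hg')).trans (mk_le_mk_of_subset ?_)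
  rintro y ⟨hy1, hy2⟩
  exact ⟨h y ((le_max_left _ _).trans_lt hy2.1) (hy2.2.trans_le hxd) hy1,
    (le_max_right _ _).trans_lt hy2.1, hy2.2⟩

lemma der_iterate_local {S T : Set II} {g d : II} (hg : g < d) (n : ℕ)
    (h : ∀ x, g < x → x < d → (x ∈ S → x ∈ T)) :
    ∀ x, g < x → x ≤ d → (x ∈ der^[n + 1] S → x ∈ der^[n + 1] T) := by
  induction n generalizing S T with
  | zero => exact der_local h
  | succ n ih =>
    intro x hgx hxd hx
    rw [Function.iterate_succ_apply] at hx ⊢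
    exact ih (fun y h1 h2 => der_local h y h1 h2.le) x hgx hxd hx

/-- a set with no point below `b` and so on -/
lemma der_below {S : Set II} {b : II} (h : ∀ x ∈ S, b ≤ x) : ∀ x ∈ der S, b ≤ x := by
  rintro x ⟨⟨g, hg⟩, hx⟩
  by_contra hlt
  push Not at hlt
  have h1 := hx g hg
  have h2 : S ∩ Ioo g x = ∅ := by
    rw [Set.eq_empty_iff_forall_notMem]
    rintro y ⟨hy1, hy2⟩
    exact absurd (h y hy1) (not_le.2 (hy2.2.trans hlt))
  rw [h2, mk_eq_zero] at h1
  exact absurd h1 (not_le.2 (aleph0_pos.trans_le aleph0_le_continuum))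

lemma der_iterate_below {S : Set II} {b : II} (n : ℕ) (h : ∀ x ∈ S, b ≤ x) :
    ∀ x ∈ der^[n] S, b ≤ x := by
  induction n generalizing S with
  | zero => exact h
  | succ n ih =>
    rw [Function.iterate_succ_apply]
    exact ih (der_below h)

/-- a set with few points below each point below `b` has no derived point below `b` -/
lemma der_below_of_small {S : Set II} {b : II} (h : ∀ d, d < b → #(S ∩ Iio d : Set II) < 𝔠) :
    ∀ x ∈ der S, b ≤ x := by
  rintro x ⟨⟨g, hg⟩, hx⟩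
  by_contra hlt
  push Not at hlt
  have h1 := hx g hg
  have h2 : S ∩ Ioo g x ⊆ S ∩ Iio x := fun y hy => ⟨hy.1, hy.2.2⟩
  exact absurd (h1.trans (mk_le_mk_of_subset h2)) (not_le.2 (h x hlt))

lemma exists_emb (b : II) : ∃ e : II → KK, InjOn e (Iio b) := by
  classical
  have h1 : #(Iio b) ≤ #KK := by
    rw [mk_KK]
    exact mk_Iio_II b
  obtain ⟨f⟩ := (le_def _ _).1 h1
  have hne : Nonempty KK := by
    rw [← mk_ne_zero_iff, mk_KK]
    exact continuum_ne_zero
  refine ⟨fun a => if h : a < b then f ⟨a, h⟩ else Classical.arbitrary KK, ?_⟩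
  intro x hx y hy hxy
  simp only [mem_Iio] at hx hy
  simp only [hx, hy, dif_pos] at hxy
  have := f.injective hxy
  exact congrArg Subtype.val this

/-- the embeddings -/
noncomputable def emb (b : II) : II → KK := (exists_emb b).choose

lemma emb_inj (b : II) : InjOn (emb b) (Iio b) := (exists_emb b).choose_spec

/-- the C-sequence -/
def CC (b : II) : Set II := {a | a < b ∧ ∀ a', a' < b → emb b a' < emb b a → a' < a}

lemma CC_cofinal {a b : II} (h : a < b) : ∃ x ∈ CC b, a ≤ x := by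
  obtain ⟨x, hx, hmin⟩ := WellFounded.has_min
    (InvImage.wf (emb b) (wellFounded_lt (α := KK))) (Ico a b) ⟨a, le_rfl, h⟩
  refine ⟨x, ⟨hx.2, fun a' ha' hlt => ?_⟩, hx.1⟩
  by_contra hle
  push Not at hle
  exact hmin a' ⟨hx.1.trans hle, ha'⟩ hlt

lemma CC_small {g b : II} (h : g < b) : #(CC b ∩ Iio g : Set II) < 𝔠 := by
  obtain ⟨x, hx, hgx⟩ := CC_cofinal h
  refine lt_of_le_of_lt ?_ (mk_Iio_KK (emb b x))
  have hmap : ∀ y ∈ CC b ∩ Iio g, emb b y ∈ Iio (emb b x) := by
    rintro y ⟨hy1, hy2⟩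
    have hyx : y < x := lt_of_lt_of_le hy2 hgx
    by_contra hle
    simp only [mem_Iio, not_lt] at hle
    rcases hle.lt_or_eq with hlt | heq
    · exact absurd (hy1.2 x hx.1 hlt) (not_lt.2 hyx.le)
    · exact absurd (emb_inj b hx.1 hy1.1 heq) hyx.ne'
  refine mk_le_of_injective (f := fun y : (CC b ∩ Iio g : Set II) =>
    (⟨emb b y, hmap y y.2⟩ : Iio (emb b x))) ?_
  intro y z hyz
  simp only [Subtype.mk.injEq] at hyz
  exact Subtype.ext (emb_inj b y.2.1.1 z.2.1.1 hyz)

lemma exists_nx (a b : II) : ∃ x : II, a < b → (x ∈ CC b ∧ a ≤ x ∧ ∀ y ∈ CC b, a ≤ y → x ≤ y) := by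
  by_cases h : a < b
  · obtain ⟨x, hx, hax⟩ := CC_cofinal h
    obtain ⟨z, hz, hmin⟩ := WellFounded.has_min (wellFounded_lt (α := II))
      (CC b ∩ Ici a) ⟨x, hx, hax⟩
    exact ⟨z, fun _ => ⟨hz.1, hz.2, fun y hy hay => not_lt.1 (hmin y ⟨hy, hay⟩)⟩⟩
  · exact ⟨a, fun h' => absurd h' h⟩

/-- the next element -/
noncomputable def nx (a b : II) : II := (exists_nx a b).choose

lemma nx_spec {a b : II} (h : a < b) :
    nx a b ∈ CC b ∧ a ≤ nx a b ∧ ∀ y ∈ CC b, a ≤ y → nx a b ≤ y :=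
  (exists_nx a b).choose_spec h

/-- the sets `D n b` -/
noncomputable def DD : ℕ → II → Set II
  | 0, _ => ∅
  | (n + 1), b => {a | a < b ∧ (a ∈ CC b ∨ a ∈ DD n (nx a b))}

lemma DD_lt {n : ℕ} {a b : II} (h : a ∈ DD n b) : a < b := by
  cases n with
  | zero => exact absurd h (notMem_empty _)
  | succ n => exact h.1

lemma DD_mono (n : ℕ) (b : II) : DD n b ⊆ DD (n + 1) b := by
  induction n generalizing b with
  | zero => exact empty_subset _
  | succ n ih =>
    rintro a ⟨h1, h2 | h2⟩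
    · exact ⟨h1, Or.inl h2⟩
    · exact ⟨h1, Or.inr (ih _ h2)⟩

lemma DD_mono' {n m : ℕ} (h : n ≤ m) (b : II) : DD n b ⊆ DD m b := by
  induction h with
  | refl => exact Subset.rfl
  | step _ ih => exact ih.trans (DD_mono _ b)

lemma DD_union (b : II) : ∀ a, a < b → ∃ n, a ∈ DD n b := by
  induction b using WellFoundedLT.induction with
  | ind b ih =>
    intro a hab
    by_cases ha : a ∈ CC b
    · exact ⟨1, hab, Or.inl ha⟩
    · obtain ⟨h1, h2, h3⟩ := nx_spec hab
      have h4 : a < nx a b := lt_of_le_of_ne h2 (fun h => ha (h ▸ h1))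
      obtain ⟨n, hn⟩ := ih (nx a b) h1.1 a h4
      exact ⟨n + 1, hab, Or.inr hn⟩

/-- the function -/
noncomputable def mu (a b : II) : ℕ := sInf {n | a ∈ DD n b}

lemma mem_DD_of_not_lt_mu {a b : II} {n : ℕ} (h : a < b) (hn : ¬ n < mu a b) : a ∈ DD n b := by
  have h1 : mu a b ∈ {n | a ∈ DD n b} := Nat.sInf_mem (DD_union b a h)
  exact DD_mono' (not_lt.1 hn) b h1

/-- the limit points of the C-sequence -/
def LC (b : II) : Set II := {d | ∀ g, g < d → (CC b ∩ Ioo g d).Nonempty}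

lemma small_F {b d : II} (hd : d < b) : #((CC b ∪ LC b) ∩ Iio d : Set II) < 𝔠 := by
  have h1 : #(CC b ∩ Iio d : Set II) < 𝔠 := CC_small hd
  have h2 : #(LC b ∩ Iio d : Set II) < 𝔠 := by
    set c0 := nx d b with hc0
    obtain ⟨hc1, hc2, hc3⟩ := nx_spec hd
    have h3 : #(CC b ∩ Iic c0 : Set II) < 𝔠 := by
      have h4 : CC b ∩ Iic c0 ⊆ (CC b ∩ Iio c0) ∪ {c0} := by
        rintro y ⟨hy1, hy2⟩
        rcases lt_or_eq_of_le (mem_Iic.1 hy2) with h | h
        · exact Or.inl ⟨hy1, h⟩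
        · exact Or.inr h
      refine lt_of_le_of_lt ((mk_le_mk_of_subset h4).trans (mk_union_le _ _)) ?_
      refine add_lt_of_lt aleph0_le_continuum (CC_small hc1.1) ?_
      rw [mk_singleton]
      exact one_lt_aleph0.trans_le aleph0_le_continuum
    refine lt_of_le_of_lt ?_ h3
    have hmap : ∀ y ∈ LC b ∩ Iio d, nx y b ∈ CC b ∩ Iic c0 := by
      rintro y ⟨hy1, hy2⟩
      obtain ⟨h5, h6, h7⟩ := nx_spec (lt_trans (mem_Iio.1 hy2) hd)
      exact ⟨h5, h7 c0 hc1 ((mem_Iio.1 hy2).le.trans hc2)⟩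
    refine mk_le_of_injective (f := fun y : (LC b ∩ Iio d : Set II) =>
      (⟨nx y b, hmap y y.2⟩ : (CC b ∩ Iic c0 : Set II))) ?_
    have key : ∀ y z : (LC b ∩ Iio d : Set II), (y : II) < z → nx y b < nx z b := by
      intro y z hyz
      obtain ⟨w, hw1, hw2⟩ := z.2.1 y hyz
      have hyb : (y : II) < b := lt_trans y.2.2 hd
      have hzb : (z : II) < b := lt_trans z.2.2 hd
      exact ((nx_spec hyb).2.2 w hw1 hw2.1.le).trans_lt (hw2.2.trans_le (nx_spec hzb).2.1)
    intro y z hyz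
    simp only [Subtype.mk.injEq] at hyz
    rcases lt_trichotomy (y : II) (z : II) with h | h | h
    · exact absurd hyz (key y z h).ne
    · exact Subtype.ext h
    · exact absurd hyz (key z y h).ne'
  rw [union_inter_distrib_right]
  exact lt_of_le_of_lt (mk_union_le _ _) (add_lt_of_lt aleph0_le_continuum h1 h2)

theorem claimQ (n : ℕ) : ∀ b : II, ∀ x ∈ der^[n] (DD n b), b ≤ x := by
  induction n with
  | zero => intro b x hx; exact absurd hx (notMem_empty _)
  | succ n ih =>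
    intro b
    set E := DD (n + 1) b \ CC b with hE
    have hsplit : DD (n + 1) b = (DD (n + 1) b ∩ CC b) ∪ E := by
      rw [hE, inter_union_sdiff]
    rw [hsplit, der_iterate_union]
    rintro x (hx | hx)
    · -- the part in `CC b`
      have h1 : x ∈ der^[n + 1] (CC b) := by
        have := der_iterate_mono_local (S := DD (n + 1) b ∩ CC b) (T := CC b) (d := x) (n + 1)
          (fun y hy => hy.1.2)
        exact this ⟨hx, mem_Iic.2 le_rfl⟩
      rw [Function.iterate_succ_apply] at h1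
      exact der_iterate_below n (der_below_of_small fun d hd => CC_small hd) x h1
    · -- the part `E`
      rw [Function.iterate_succ_apply'] at hx
      have hF : der^[n] E ∩ Iio b ⊆ CC b ∪ LC b := by
        rintro d ⟨hd1, hd2⟩
        by_contra hcon
        rw [mem_union, not_or] at hcon
        obtain ⟨hc1, hc2⟩ := hcon
        simp only [LC, mem_ofPred_eq, not_forall] at hc2
        obtain ⟨g, hg, hg'⟩ := hc2
        rw [not_nonempty_iff_eq_empty] at hg'
        have hgC : ∀ y, g < y → y < d → y ∉ CC b := by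
          intro y h1 h2 h3
          have : y ∈ CC b ∩ Ioo g d := ⟨h3, h1, h2⟩
          rw [hg'] at this
          exact this
        obtain ⟨h1, h2, h3⟩ := nx_spec (mem_Iio.1 hd2)
        have h4 : d < nx d b := lt_of_le_of_ne h2 (fun h => hc1 (h ▸ h1))
        have hnx : ∀ y, g < y → y < d → nx y b = nx d b := by
          intro y hy1 hy2
          have hyb : y < b := hy2.trans hd2
          obtain ⟨h5, h6, h7⟩ := nx_spec hyb
          apply le_antisymm
          · exact h7 _ h1 (hy2.le.trans h2)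
          · apply h3 _ h5
            by_contra hlt
            push Not at hlt
            rcases h6.lt_or_eq with h8 | h8
            · exact hgC _ (hy1.trans h8) hlt h5
            · exact hgC y hy1 hy2 (h8 ▸ h5)
        have hloc : ∀ y, g < y → y < d → (y ∈ E → y ∈ DD n (nx d b)) := by
          rintro y hy1 hy2 ⟨⟨hy3, hy4 | hy4⟩, hy5⟩
          · exact absurd hy4 hy5
          · rwa [hnx y hy1 hy2] at hy4
        cases n with
        | zero =>
          simp only [Function.iterate_zero, id] at hd1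
          rcases hd1 with ⟨⟨h8, h9 | h9⟩, h10⟩
          · exact h10 h9
          · exact absurd h9 (notMem_empty _)
        | succ m =>
          have h5 := der_iterate_local hg m hloc d hg le_rfl hd1
          exact absurd (ih (nx d b) d h5) (not_le.2 h4)
      refine der_below_of_small (S := der^[n] E) (fun d hd => ?_) x hx
      refine lt_of_le_of_lt (mk_le_mk_of_subset ?_) (small_F hd)
      rintro y ⟨hy1, hy2⟩
      exact ⟨hF ⟨hy1, lt_trans (mem_Iio.1 hy2) hd⟩, hy2⟩

/-- the derivative of an unbounded set is unbounded -/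
lemma unbounded_der {S : Set II} (hS : ∀ g, ∃ d, g < d ∧ d ∈ S) :
    ∀ g, ∃ d, g < d ∧ d ∈ der S := by
  intro g
  obtain ⟨d, hd, h⟩ := limit_lemma (fun g1 g2 => 𝔠 ≤ #(S ∩ Ioo g1 g2 : Set II))
    (exists_large S hS) g
  refine ⟨d, hd, ⟨g, hd⟩, fun g' hg' => ?_⟩
  obtain ⟨g1, g2, h1, h2, h3, h4⟩ := h g' hg'
  refine h4.trans (mk_le_mk_of_subset ?_)
  rintro x ⟨hx1, hx2⟩
  exact ⟨hx1, h1.trans_lt hx2.1, hx2.2.trans h3⟩

lemma unbounded_der_iterate (n : ℕ) {S : Set II} (hS : ∀ g, ∃ d, g < d ∧ d ∈ S) :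
    ∀ g, ∃ d, g < d ∧ d ∈ der^[n] S := by
  induction n generalizing S with
  | zero => exact hS
  | succ n ih =>
    rw [Function.iterate_succ_apply]
    exact ih (unbounded_der hS)

theorem exists_mu : ∃ μ : II → II → ℕ, ∀ (n : ℕ) (A : Set (Finset II)),
    (∀ g : II, ∃ a ∈ A, a.Nonempty ∧ ∀ x ∈ a, g < x) →
    ∃ a ∈ A, ∃ b ∈ A, a.Nonempty ∧ b.Nonempty ∧ ∀ x ∈ a, ∀ y ∈ b, x < y ∧ n < μ x y := by
  classical
  refine ⟨mu, fun n A hA => ?_⟩
  by_contra hcon
  have hviol : ∀ a ∈ A, ∀ b ∈ A, a.Nonempty → b.Nonempty →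
      (∀ x ∈ a, ∀ y ∈ b, x < y) → ∃ x ∈ a, ∃ y ∈ b, x ∈ DD n y := by
    intro a ha b hb hane hbne hlt
    by_contra h
    push Not at h
    apply hcon
    refine ⟨a, ha, b, hb, hane, hbne, fun x hx y hy => ⟨hlt x hx y hy, ?_⟩⟩
    by_contra hn
    exact h x hx y hy (mem_DD_of_not_lt_mu (hlt x hx y hy) hn)
  choose nxt hnA hnne hngt using hA
  set m : II → II := fun g => (nxt g).max' (hnne g) with hm
  have hmle : ∀ g, ∀ x ∈ nxt g, x ≤ m g := fun g x hx => Finset.le_max' _ x hx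
  -- the club
  set Cl : Set II := {x | ∀ y, y < x → m y < x} with hCl
  have hClub : ∀ g, ∃ d, g < d ∧ d ∈ Cl := by
    intro g
    obtain ⟨d, hd, h⟩ := limit_lemma (fun g1 g2 => ∀ y, y ≤ g1 → m y < g2) (by
      intro g1
      obtain ⟨b, hb⟩ := bdd_of_small (m '' Iic g1) (mk_image_le.trans (mk_Iic_II g1))
      obtain ⟨b', hb'⟩ := bdd_of_small {g1} (by
        rw [mk_singleton]; exact one_le_aleph0.trans aleph0_le_continuum)
      refine ⟨max b b', (hb' g1 rfl).trans_le (le_max_right _ _), fun y hy => ?_⟩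
      exact (hb _ ⟨y, hy, rfl⟩).trans_le (le_max_left _ _)) g
    refine ⟨d, hd, fun y hy => ?_⟩
    obtain ⟨g1, g2, h1, h2, h3, h4⟩ := h y hy
    exact (h4 y h1).trans h3
  -- the property
  set P : II → II → Prop := fun g d => ∀ T : Set II,
    (∀ a ∈ A, a.Nonempty → (a : Set II) ⊆ Ioo g d → (T ∩ a).Nonempty) →
      𝔠 ≤ #(T ∩ Ioo g d : Set II) with hP
  have hPex : ∀ g, ∃ g', g < g' ∧ P g g' := by
    intro g
    obtain ⟨g1, hg1, hc⟩ := exists_large Cl hClub g
    obtain ⟨g', hg', hg'C⟩ := hClub g1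
    refine ⟨g', hg1.trans hg', fun T hT => ?_⟩
    refine hc.trans ?_
    have hsub : ∀ x ∈ Cl ∩ Ioo g g1, (nxt x : Set II) ⊆ Ioo g g' := by
      rintro x ⟨hx1, hx2⟩ y hy
      refine ⟨hx2.1.trans (hngt x y hy), ?_⟩
      exact (hmle x y hy).trans_lt (hg'C x (hx2.2.trans hg'))
    have hne : ∀ x ∈ Cl ∩ Ioo g g1, (T ∩ nxt x).Nonempty := fun x hx =>
      hT (nxt x) (hnA x) (hnne x) (hsub x hx)
    have : Nonempty II := ⟨g⟩
    choose! t ht using hne
    refine mk_le_of_injective (f := fun x : (Cl ∩ Ioo g g1 : Set II) =>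
      (⟨t x, (ht x x.2).1, hsub x x.2 (ht x x.2).2⟩ : (T ∩ Ioo g g' : Set II))) ?_
    have key : ∀ x y : (Cl ∩ Ioo g g1 : Set II), (x : II) < y → t x < t y := by
      intro x y hxy
      have h1 : t x ≤ m x := hmle x _ (ht x x.2).2
      have h2 : m x < y := y.2.1 x hxy
      have h3 : (y : II) < t y := hngt y _ (ht y y.2).2
      exact h1.trans_lt (h2.trans h3)
    intro x y hxy
    replace hxy : t x = t y := congrArg Subtype.val hxy
    rcases lt_trichotomy (x : II) (y : II) with h | h | h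
    · exact absurd hxy (key x y h).ne
    · exact Subtype.ext h
    · exact absurd hxy (key y x h).ne'
  set W : Set II := {d | (∃ g, g < d) ∧ ∀ g, g < d → P g d} with hW
  have hWun : ∀ g, ∃ d, g < d ∧ d ∈ W := by
    intro g
    obtain ⟨d, hd, h⟩ := limit_lemma P hPex g
    refine ⟨d, hd, ⟨g, hd⟩, fun g' hg' T hT => ?_⟩
    obtain ⟨g1, g2, h1, h2, h3, h4⟩ := h g' hg'
    have hsub : Ioo g1 g2 ⊆ Ioo g' d := fun x hx => ⟨h1.trans_lt hx.1, hx.2.trans h3⟩
    refine (h4 T fun a ha hane haS => hT a ha hane (haS.trans hsub)).trans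
      (mk_le_mk_of_subset (inter_subset_inter_right _ hsub))
  -- pick the point
  obtain ⟨g0⟩ : Nonempty II := by
    rw [← mk_ne_zero_iff, mk_II]
    exact (Order.succ_ne_bot _)
  obtain ⟨d, -, hd⟩ := unbounded_der_iterate n hWun g0
  set b := nxt d with hb
  set T : Set II := ⋃ y ∈ b, DD n y with hT
  have hmeet : ∀ a ∈ A, a.Nonempty → (a : Set II) ⊆ Iio d → (T ∩ a).Nonempty := by
    intro a ha hane had
    obtain ⟨x, hx, y, hy, hxy⟩ := hviol a ha b (hnA d) hane (hnne d)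
      (fun x hx y hy => lt_trans (had hx) (hngt d y hy))
    exact ⟨x, mem_biUnion hy hxy, hx⟩
  have hWT : W ∩ Iic d ⊆ der T := by
    rintro w ⟨⟨hw1, hw2⟩, hw3⟩
    refine ⟨hw1, fun g hg => hw2 g hg T fun a ha hane haS => hmeet a ha hane ?_⟩
    exact fun x hx => (haS hx).2.trans_le hw3
  have h1 : d ∈ der^[n] (der T) := der_iterate_mono_local n hWT ⟨hd, mem_Iic.2 le_rfl⟩
  rw [← Function.iterate_succ_apply, Function.iterate_succ_apply'] at h1
  obtain ⟨g, hg⟩ := h1.1
  have h2 := h1.2 g hg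
  have h3 : der^[n] T ∩ Ioo g d = ∅ := by
    rw [Set.eq_empty_iff_forall_notMem]
    rintro x ⟨hx1, hx2⟩
    rw [hT, der_iterate_biUnion] at hx1
    simp only [mem_iUnion] at hx1
    obtain ⟨y, hy, hxy⟩ := hx1
    have h4 := claimQ n y x hxy
    exact absurd (h4.trans_lt (hx2.2.trans (hngt d y hy))) (lt_irrefl _)
  rw [h3, mk_eq_zero] at h2
  exact absurd h2 (not_le.2 (aleph0_pos.trans_le aleph0_le_continuum))

end Pool.Agent.W898423
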