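import Pool.Agent.Work.MP_898423_gt.Defs

/-!
Elementary facts on trees.
-/

set_option autoImplicit false

open scoped Cardinal

namespace Pool.Agent.CellLind

open Ge

variable {κ : Type}

namespace Ge

theorem self_mem (g : Ge κ) : g ∈ g.nodes := by
  cases g <;> simp [nodes]

theorem mem_trans {x y z : Ge κ} (h1 : x ∈ y.nodes) (h2 : y ∈ z.nodes) : x ∈ z.nodes := by
  induction z with
  | leaf b l =>
    simp only [nodes, List.mem_singleton] at h2
    subst h2; exact h1
  | bin b l u v ihu ihv =>
    simp only [nodes, List.mem_cons, List.mem_append] at h2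
    rcases h2 with h2 | h2 | h2
    · subst h2; exact h1
    · simp only [nodes, List.mem_cons, List.mem_append]
      exact Or.inr (Or.inl (ihu h2))
    · simp only [nodes, List.mem_cons, List.mem_append]
      exact Or.inr (Or.inr (ihv h2))

theorem good_of_mem [LT κ] {x z : Ge κ} (hz : z.Good) (h : x ∈ z.nodes) : x.Good := by
  induction z with
  | leaf b l =>
    simp only [nodes, List.mem_singleton] at h
    subst h; exact hz
  | bin b l u v ihu ihv =>
    simp only [nodes, List.mem_cons, List.mem_append] at h
    rcases h with h | h | h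
    · subst h; exact hz
    · exact ihu hz.2.2.1 h
    · exact ihv hz.2.2.2 h

theorem bl_lt_of_mem [Preorder κ] {x z : Ge κ} (hz : z.Good) (h : x ∈ z.nodes) (hne : x ≠ z) :
    x.bl < z.bl := by
  induction z with
  | leaf b l =>
    simp only [nodes, List.mem_singleton] at h
    exact absurd h hne
  | bin b l u v ihu ihv =>
    simp only [nodes, List.mem_cons, List.mem_append] at h
    rcases h with h | h | h
    · exact absurd h hne
    · by_cases hxu : x = u
      · subst hxu; exact hz.1
      · exact lt_trans (ihu hz.2.2.1 h hxu) hz.1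
    · by_cases hxv : x = v
      · subst hxv; exact hz.2.1
      · exact lt_trans (ihv hz.2.2.2 h hxv) hz.2.1

theorem bl_le_of_mem [Preorder κ] {x z : Ge κ} (hz : z.Good) (h : x ∈ z.nodes) :
    x.bl ≤ z.bl := by
  by_cases hne : x = z
  · subst hne; exact le_rfl
  · exact (bl_lt_of_mem hz h hne).le

theorem antisymm_mem [Preorder κ] {x z : Ge κ} (hz : z.Good) (h : x ∈ z.nodes)
    (h' : z ∈ x.nodes) : x = z := by
  by_contra hne
  have h1 := bl_lt_of_mem hz h hne
  have h2 := bl_lt_of_mem (good_of_mem hz h) h' (fun h => hne h.symm)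
  exact lt_asymm h1 h2

theorem size_pos (g : Ge κ) : 0 < g.size := by
  cases g <;> simp [size, nodes]

@[simp] theorem nd_zero (g : Ge κ) : g.nd 0 = g := by
  cases g <;> simp [nd, nodes]

theorem nd_mem (g : Ge κ) (i : ℕ) : g.nd i ∈ g.nodes := by
  unfold nd
  by_cases h : i < g.nodes.length
  · rw [List.getD_eq_getElem _ _ h]; exact List.getElem_mem h
  · rw [List.getD_eq_default _ _ (not_lt.mp h)]; exact self_mem g

theorem nd_of_size_le {g : Ge κ} {i : ℕ} (h : g.size ≤ i) : g.nd i = g := by
  unfold nd
  rw [List.getD_eq_default _ _ h]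

theorem exists_nd {g x : Ge κ} (h : x ∈ g.nodes) : ∃ i < g.size, g.nd i = x := by
  obtain ⟨i, hi, rfl⟩ := List.getElem_of_mem h
  exact ⟨i, hi, by unfold nd; rw [List.getD_eq_getElem _ _ hi]⟩

theorem nodes_shape (g : Ge κ) : g.shape.nodes = g.nodes.map shape := by
  induction g with
  | leaf b l => simp [nodes, shape]
  | bin b l x y ihx ihy => simp [nodes, shape, ihx, ihy]

theorem size_shape (g : Ge κ) : g.shape.size = g.size := by
  simp [size, nodes_shape]

theorem shape_nd (g : Ge κ) (i : ℕ) : (g.nd i).shape = g.shape.nd i := by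
  unfold nd
  rw [nodes_shape, List.getD_map]

theorem nm_shape (g : Ge κ) : g.shape.nm = g.nm := by
  cases g <;> rfl

/-- shape and blocks determine the tree -/
theorem recon_list {g g' : Ge κ} (h : g.shape = g'.shape)
    (hb : g.nodes.map bl = g'.nodes.map bl) : g = g' := by
  induction g generalizing g' with
  | leaf b l =>
    cases g' with
    | leaf b' l' =>
      simp only [shape, leaf.injEq, true_and] at h
      simp only [nodes, bl, List.map_cons, List.map_nil, List.cons.injEq, and_true] at hb
      rw [h, hb]
    | bin b' l' x' y' => simp [shape] at h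
  | bin b l x y ihx ihy =>
    cases g' with
    | leaf b' l' => simp [shape] at h
    | bin b' l' x' y' =>
      simp only [shape, bin.injEq, true_and] at h
      obtain ⟨hl, hx, hy⟩ := h
      simp only [nodes, List.map_cons, List.map_append, List.cons.injEq] at hb
      obtain ⟨hb0, hb1⟩ := hb
      have hlen : (x.nodes.map bl).length = (x'.nodes.map bl).length := by
        have := congrArg size hx
        rw [size_shape, size_shape] at this
        simpa [size] using this
      obtain ⟨h1, h2⟩ := List.append_inj hb1 hlen
      rw [ihx hx h1, ihy hy h2, hl]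
      congr 1

theorem recon {g g' : Ge κ} (h : g.shape = g'.shape)
    (hb : ∀ i < g.size, (g.nd i).bl = (g'.nd i).bl) : g = g' := by
  apply recon_list h
  have hlen : g.nodes.length = g'.nodes.length := by
    have := congrArg size h
    rw [size_shape, size_shape] at this
    simpa [size] using this
  apply List.ext_getElem
  · simpa using hlen
  · intro i h1 h2
    simp only [List.length_map] at h1 h2
    have := hb i h1
    unfold nd at this
    rw [List.getD_eq_getElem _ _ h1, List.getD_eq_getElem _ _ h2] at this
    simpa using this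

theorem drop_nodes (g : Ge κ) {i : ℕ} (hi : i < g.size) :
    ∃ t, g.nodes.drop i = (g.nd i).nodes ++ t := by
  induction g generalizing i with
  | leaf b l =>
    have : i = 0 := by simpa [size, nodes] using hi
    subst this
    exact ⟨[], by simp⟩
  | bin b l x y ihx ihy =>
    rcases i with _ | i
    · exact ⟨[], by simp⟩
    · by_cases h : i < x.size
      · obtain ⟨t, ht⟩ := ihx h
        refine ⟨t ++ y.nodes, ?_⟩
        have h1 : (bin b l x y).nd (i + 1) = x.nd i := by
          have h' : i < x.nodes.length := h
          unfold nd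
          rw [List.getD_eq_getElem _ _ h', List.getD_eq_getElem _ _ hi]
          simp only [nodes, List.getElem_cons_succ]
          rw [List.getElem_append_left h']
        rw [h1]
        simp only [nodes, List.drop_succ_cons]
        rw [List.drop_append_of_le_length (le_of_lt h), ht, List.append_assoc]
      · have h' : x.nodes.length ≤ i := not_lt.mp h
        have hy : i - x.size < y.size := by
          simp only [size, nodes, List.length_cons, List.length_append] at hi
          simp only [size]; omega
        obtain ⟨t, ht⟩ := ihy hy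
        refine ⟨t, ?_⟩
        have h1 : (bin b l x y).nd (i + 1) = y.nd (i - x.size) := by
          have h'' : i - x.size < y.nodes.length := hy
          unfold nd
          rw [List.getD_eq_getElem _ _ h'', List.getD_eq_getElem _ _ hi]
          simp only [nodes, List.getElem_cons_succ]
          rw [List.getElem_append_right h']
          rfl
        rw [h1]
        simp only [nodes, List.drop_succ_cons]
        rw [List.drop_append, List.drop_eq_nil_of_le h', List.nil_append]
        exact ht

/-- position of the `a`-th node of the `i`-th node -/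
def ix (σ : Ge Unit) (i a : ℕ) : ℕ :=
  if i < σ.size then (if a < (σ.nd i).size then i + a else i) else a

theorem nd_nd (g : Ge κ) (i a : ℕ) : (g.nd i).nd a = g.nd (ix g.shape i a) := by
  unfold ix
  rw [← shape_nd, size_shape, size_shape]
  split_ifs with h1 h2
  · obtain ⟨t, ht⟩ := g.drop_nodes h1
    have h2' : a < (g.nd i).nodes.length := h2
    have e1 : (g.nd i).nd a = (g.nd i).nodes[a] := by
      show (g.nd i).nodes.getD a _ = _
      rw [List.getD_eq_getElem _ _ h2']
    have h3 : a < (g.nodes.drop i).length := by
      rw [ht, List.length_append]; omega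
    have e2 : (g.nodes.drop i)[a] = (g.nd i).nodes[a] := by
      simp only [ht]
      rw [List.getElem_append_left h2']
    have h4 : i + a < g.nodes.length := by
      rw [List.length_drop] at h3; omega
    have e3 : g.nd (i + a) = g.nodes[i + a] := by
      show g.nodes.getD (i + a) _ = _
      rw [List.getD_eq_getElem _ _ h4]
    rw [e1, e3, ← e2, List.getElem_drop]
  · rw [nd_of_size_le (not_lt.mp h2)]
  · rw [nd_of_size_le (not_lt.mp h1)]

end Ge

deriving instance Countable for Ge

theorem countable_range_ty (D : κ → κ → ℕ) : (Set.range (ty D)).Countable := by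
  have key : Set.range (ty D) ⊆ ⋃ σ : Ge Unit,
      Set.range (fun R : Fin σ.size → Fin σ.size → ℕ × Prop × Prop =>
        ((σ, fun i j => R (if h : i < σ.size then ⟨i, h⟩ else ⟨0, σ.size_pos⟩)
          (if h : j < σ.size then ⟨j, h⟩ else ⟨0, σ.size_pos⟩)) : Ty)) := by
    rintro _ ⟨g, rfl⟩
    rw [Set.mem_iUnion]
    refine ⟨g.shape, fun i j => rel D (g.nd i) (g.nd j), ?_⟩
    have h : ∀ i : ℕ, g.nd ((if h : i < g.shape.size then (⟨i, h⟩ : Fin g.shape.size)
        else ⟨0, g.shape.size_pos⟩ : Fin g.shape.size) : ℕ) = g.nd i := by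
      intro i
      by_cases hi : i < g.shape.size
      · rw [dif_pos hi]
      · rw [dif_neg hi]
        rw [size_shape] at hi
        rw [nd_of_size_le (not_lt.mp hi)]
        simp
    unfold ty
    simp only [h]
  exact (Set.countable_iUnion fun σ => Set.countable_range _).mono key

theorem mk_good_le [LinearOrder κ] (h1 : ∀ γ : κ, #(Set.Iic γ) ≤ 𝔠) (γ : κ) :
    #{x : Ge κ | x.Good ∧ x.bl ≤ γ} ≤ 𝔠 := by
  have hf : Function.Injective (fun x : Ge κ => (x.shape, x.nodes.map bl)) := by
    intro x y h
    simp only [Prod.mk.injEq] at h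
    exact recon_list h.1 h.2
  have h2 : (fun x : Ge κ => (x.shape, x.nodes.map bl)) '' {x : Ge κ | x.Good ∧ x.bl ≤ γ} ⊆
      Set.range (fun q : Ge Unit × List (Set.Iic γ) => (q.1, q.2.map Subtype.val)) := by
    rintro _ ⟨x, ⟨hx1, hx2⟩, rfl⟩
    have : ∀ b ∈ x.nodes.map bl, b ∈ Set.Iic γ := by
      intro b hb
      rw [List.mem_map] at hb
      obtain ⟨z, hz, rfl⟩ := hb
      exact (bl_le_of_mem hx1 hz).trans hx2
    refine ⟨(x.shape, (x.nodes.map bl).attach.map fun b => ⟨b.1, this b.1 b.2⟩), ?_⟩
    simp only [List.map_map, Prod.mk.injEq, true_and]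
    exact List.attach_map_subtype_val _
  have h3 : #(Ge Unit × List (Set.Iic γ)) ≤ 𝔠 := by
    rw [Cardinal.mk_prod, Cardinal.lift_id, Cardinal.lift_id]
    have e1 : #(Ge Unit) ≤ 𝔠 := (Cardinal.mk_le_aleph0 (α := Ge Unit)).trans
      Cardinal.aleph0_le_continuum
    have e2 : #(List (Set.Iic γ)) ≤ 𝔠 := (Cardinal.mk_list_le_max _).trans
      (max_le Cardinal.aleph0_le_continuum (h1 γ))
    calc #(Ge Unit) * #(List (Set.Iic γ)) ≤ 𝔠 * 𝔠 := mul_le_mul' e1 e2
      _ = 𝔠 := Cardinal.continuum_mul_self
  calc #{x : Ge κ | x.Good ∧ x.bl ≤ γ}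
      = #((fun x : Ge κ => (x.shape, x.nodes.map bl)) '' {x : Ge κ | x.Good ∧ x.bl ≤ γ}) :=
        (Cardinal.mk_image_eq hf).symm
    _ ≤ #(Set.range (fun q : Ge Unit × List (Set.Iic γ) => (q.1, q.2.map Subtype.val))) :=
        Cardinal.mk_le_mk_of_subset h2
    _ ≤ #(Ge Unit × List (Set.Iic γ)) := Cardinal.mk_range_le
    _ ≤ 𝔠 := h3

end Pool.Agent.CellLind
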