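import Pool.Agent.Work.MP_898423_gt.Basic

/-!
The tree space has no large cellular families: Delta system plus unbounded colouring.
-/

set_option autoImplicit false

open scoped Cardinal

namespace Pool.Agent.CellLind

open Ge

namespace CcAux

variable {κ : Type}

theorem small_iUnion {α ι : Type} (hι : #ι ≤ 𝔠) (S : ι → Set α) (h : ∀ i, #(S i) ≤ 𝔠) :
    #(⋃ i, S i : Set α) ≤ 𝔠 := by
  refine Cardinal.mk_iUnion_le_sum_mk.trans ?_
  refine (Cardinal.sum_le_sum _ (fun _ => 𝔠) h).trans ?_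
  rw [Cardinal.sum_const']
  exact (mul_le_mul' hι le_rfl).trans_eq (Cardinal.mul_eq_self Cardinal.aleph0_le_continuum)

theorem nm_nd {g g' : Ge κ} (h : g.shape = g'.shape) (i : ℕ) : (g.nd i).nm = (g'.nd i).nm := by
  rw [← nm_shape, ← nm_shape (g'.nd i), shape_nd, shape_nd, h]

theorem mem_nodes_iff (g x : Ge κ) : x ∈ g.nodes ↔ ∃ i < g.nodes.length, g.nd i = x :=
  ⟨fun h => exists_nd h, fun ⟨i, _, h⟩ => h ▸ nd_mem g i⟩

theorem length_shape (g : Ge κ) : (shape g).nodes.length = g.nodes.length := size_shape g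

theorem att_aux {D : κ → κ → ℕ} (hD : ∀ a b, D a b = D b a) {n p : ℕ} {g g' : Ge κ}
    (hs : ty D g = ty D g') (hp : g.nodes.length = p) (I : ℕ → Prop)
    (hI : ∀ i < p, I i → g.nd i = g'.nd i)
    (hn : ∀ i < p, ∀ j < p, ¬ I i → ¬ I j → n ≤ D (g.nd i).bl (g'.nd j).bl)
    {x : Ge κ} (hx : x ∈ g'.nodes) (hx' : x ∉ g.nodes) : Att D n g x := by
  have hsh : g.shape = g'.shape := congrArg Prod.fst hs
  have hrel : ∀ i j, rel D (g.nd i) (g.nd j) = rel D (g'.nd i) (g'.nd j) := fun i j =>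
    congrFun (congrFun (congrArg Prod.snd hs) i) j
  have hp' : g'.nodes.length = p := by rw [← length_shape, ← hsh, length_shape, hp]
  obtain ⟨j, hj, rfl⟩ := (mem_nodes_iff g' x).1 hx
  rw [hp'] at hj
  have hjI : ¬ I j := fun h => hx' (by rw [← hI j hj h]; exact nd_mem g j)
  refine Or.inr ⟨g.nd j, nd_mem g j, (nm_nd hsh j).symm, ?_, ?_⟩
  · rw [hD]; exact hn j hj j hj hjI hjI
  · intro f' hf' _
    obtain ⟨i, hi, rfl⟩ := (mem_nodes_iff g f').1 hf'
    rw [hp] at hi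
    by_cases hiI : I i
    · left
      have e := hI i hi hiI
      have h1 := congrArg Prod.fst (hrel i j)
      have h2 := congrArg (fun t => t.2.1) (hrel j i)
      simp only [rel] at h1 h2
      constructor
      · rw [h1, ← e]
      · rw [h2, ← e]
    · right
      exact hn i hi j hj hiI hjI

end CcAux

open CcAux

theorem cc {κ : Type} [LinearOrder κ] [WellFoundedLT κ]
    (h1 : ∀ γ : κ, #(Set.Iic γ) ≤ 𝔠) (h2 : ¬ #κ ≤ 𝔠)
    {D : κ → κ → ℕ} (hD : ∀ a b, D a b = D b a) (hU : Unb D) (n : ℕ)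
    (G : Set (Ge κ)) (hG : ∀ g ∈ G, g.Good) (hc : ¬ #G ≤ 𝔠) :
    ∃ g ∈ G, ∃ g' ∈ G, g ≠ g' ∧ (B D g n ∩ B D g' n).Nonempty := by
  classical
  -- step 1
  obtain ⟨τ, hτ⟩ : ∃ τ : Ty, ¬ #({g ∈ G | ty D g = τ} : Set (Ge κ)) ≤ 𝔠 := by
    by_contra hcon
    push Not at hcon
    apply hc
    have e : G = ⋃ τ : Set.range (ty D), {g ∈ G | ty D g = τ} := by
      ext g
      simp only [Set.mem_iUnion]
      exact ⟨fun hg => ⟨⟨ty D g, g, rfl⟩, hg, rfl⟩, fun ⟨_, hg, _⟩ => hg⟩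
    rw [e]
    refine small_iUnion ?_ _ fun τ => hcon τ
    exact ((Cardinal.le_aleph0_iff_set_countable).2 (countable_range_ty D)).trans
      Cardinal.aleph0_le_continuum
  set G1 : Set (Ge κ) := {g ∈ G | ty D g = τ} with hG1
  set p := τ.1.nodes.length with hp
  have hlen : ∀ g ∈ G1, g.nodes.length = p := by
    rintro g ⟨_, hg⟩
    rw [hp, ← hg, ← length_shape]
    rfl
  obtain ⟨g0, hg0⟩ : G1.Nonempty := by
    rw [Set.nonempty_iff_ne_empty]
    intro h
    apply hτ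
    rw [h, Cardinal.mk_eq_zero]
    exact zero_le
  have hp0 : 0 < p := by
    rw [← hlen g0 hg0]
    exact List.length_pos_of_mem (self_mem g0)
  -- step 2
  let S : Set (Finset (Fin p)) := {I | ∃ ξ : Fin p → Ge κ,
    ¬ #({g ∈ G1 | ∀ i ∈ I, g.nd i = ξ i} : Set (Ge κ)) ≤ 𝔠}
  have hS : S.Nonempty := by
    refine ⟨∅, fun _ => g0, ?_⟩
    have e : ({g ∈ G1 | ∀ i ∈ (∅ : Finset (Fin p)), g.nd i = g0} : Set (Ge κ)) = G1 := by
      ext g; simp
    rw [e]; exact hτ
  obtain ⟨I0, hI0⟩ := (Set.toFinite S).exists_maximal hS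
  obtain ⟨ξ, hξ⟩ := hI0.1
  set Gx : Set (Ge κ) := {g ∈ G1 | ∀ i ∈ I0, g.nd i = ξ i} with hGx
  have h0 : (⟨0, hp0⟩ : Fin p) ∉ I0 := by
    intro h
    apply hξ
    have : Gx ⊆ {ξ ⟨0, hp0⟩} := by
      rintro g ⟨_, hg⟩
      have := hg _ h
      rw [Set.mem_singleton_iff, ← this]
      exact (nd_zero g).symm
    refine (Cardinal.mk_le_mk_of_subset this).trans ?_
    rw [Cardinal.mk_singleton]
    exact Cardinal.one_le_aleph0.trans Cardinal.aleph0_le_continuum
  -- step 3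
  have h3 : ∀ γ : κ, ∃ g ∈ Gx, ∀ i : Fin p, i ∉ I0 → γ ≤ (g.nd i).bl := by
    intro γ
    by_contra hcon
    push Not at hcon
    apply hξ
    have hsub : Gx ⊆ ⋃ ix : Fin p × {x : Ge κ | x.Good ∧ x.bl ≤ γ},
        {g ∈ Gx | ix.1 ∉ I0 ∧ g.nd ix.1 = ix.2} := by
      intro g hg
      obtain ⟨i, hi, hlt⟩ := hcon g hg
      refine Set.mem_iUnion.2 ⟨(i, ⟨g.nd i, good_of_mem (hG g hg.1.1) (nd_mem g i), hlt.le⟩), ?_⟩
      exact ⟨hg, hi, rfl⟩
    refine (Cardinal.mk_le_mk_of_subset hsub).trans (small_iUnion ?_ _ ?_)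
    · rw [Cardinal.mk_prod, Cardinal.lift_id, Cardinal.lift_id]
      exact (mul_le_mul' (Cardinal.mk_le_aleph0.trans Cardinal.aleph0_le_continuum)
        (mk_good_le h1 γ)).trans_eq (Cardinal.mul_eq_self Cardinal.aleph0_le_continuum)
    · rintro ⟨i, x⟩
      by_cases hi : i ∈ I0
      · have : ({g ∈ Gx | i ∉ I0 ∧ g.nd i = x} : Set (Ge κ)) = ∅ := by
          ext g; simp [hi]
        rw [this, Cardinal.mk_eq_zero]
        exact zero_le
      · by_contra hbig
        have hmem : insert i I0 ∈ S := by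
          refine ⟨Function.update ξ i x, fun hle => hbig ?_⟩
          refine (Cardinal.mk_le_mk_of_subset ?_).trans hle
          rintro g ⟨hg, _, hgi⟩
          refine ⟨hg.1, fun j hj => ?_⟩
          rcases Finset.mem_insert.1 hj with rfl | hj
          · rw [Function.update_self]; exact hgi
          · have : j ≠ i := fun e => hi (e ▸ hj)
            rw [Function.update_of_ne this]
            exact hg.2 j hj
        exact hi (hI0.2 hmem (Finset.subset_insert i I0) (Finset.mem_insert_self i I0))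
  choose gg hgg hgb using h3
  -- step 4
  obtain ⟨γ, γ', hγ⟩ := hU n p (fun γ i => if i ∈ I0 then (gg γ).bl else ((gg γ).nd i).bl) (by
    intro γ i
    by_cases hi : i ∈ I0
    · simp only [hi, if_true]
      have := hgb γ ⟨0, hp0⟩ h0
      rwa [nd_zero] at this
    · simp only [hi, if_false]
      exact hgb γ i hi)
  have hmax : ∀ m : κ, ∃ δ, m < δ := by
    intro m
    by_contra hcon
    push Not at hcon
    apply h2
    have : (Set.univ : Set κ) ⊆ Set.Iic m := fun x _ => hcon x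
    rw [← Cardinal.mk_univ]
    exact (Cardinal.mk_le_mk_of_subset this).trans (h1 m)
  set g := gg γ with hg
  set g' := gg γ' with hg'
  have hgG : g ∈ Gx := hgg γ
  have hgG' : g' ∈ Gx := hgg γ'
  have hty : ty D g = ty D g' := hgG.1.2.trans hgG'.1.2.symm
  have hbl : g.bl < g'.bl := by
    have := (hγ ⟨0, hp0⟩ ⟨0, hp0⟩).1
    simp only [h0, if_false, nd_zero] at this
    exact this
  obtain ⟨δ, hδ⟩ := hmax g'.bl
  have hgood : (bin δ n g g').Good := ⟨hbl.trans hδ, hδ, hG g hgG.1.1, hG g' hgG'.1.1⟩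
  have hI : ∀ i < p, (∃ h : i < p, (⟨i, h⟩ : Fin p) ∈ I0) → g.nd i = g'.nd i := by
    rintro i hi ⟨_, h⟩
    exact (hgG.2 _ h).trans (hgG'.2 _ h).symm
  have hn : ∀ i < p, ∀ j < p, ¬ (∃ h : i < p, (⟨i, h⟩ : Fin p) ∈ I0) →
      ¬ (∃ h : j < p, (⟨j, h⟩ : Fin p) ∈ I0) → n ≤ D (g.nd i).bl (g'.nd j).bl := by
    intro i hi j hj hiI hjI
    have := (hγ ⟨i, hi⟩ ⟨j, hj⟩).2
    have e1 : (⟨i, hi⟩ : Fin p) ∉ I0 := fun h => hiI ⟨hi, h⟩
    have e2 : (⟨j, hj⟩ : Fin p) ∉ I0 := fun h => hjI ⟨hj, h⟩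
    simp only [e1, e2, if_false] at this
    exact this
  refine ⟨g, hgG.1.1, g', hgG'.1.1, fun e => hbl.ne (by rw [← e]), bin δ n g g', ?_, ?_⟩
  · refine ⟨hgood, ?_, ?_⟩
    · simp only [nodes, List.mem_cons, List.mem_append]
      exact Or.inr (Or.inl (self_mem g))
    · intro x hx hx'
      simp only [nodes, List.mem_cons, List.mem_append] at hx
      rcases hx with rfl | hx | hx
      · exact Or.inl le_rfl
      · exact absurd hx hx'
      · exact att_aux hD hty (hlen g hgG.1) _ hI hn hx hx'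
  · refine ⟨hgood, ?_, ?_⟩
    · simp only [nodes, List.mem_cons, List.mem_append]
      exact Or.inr (Or.inr (self_mem g'))
    · intro x hx hx'
      simp only [nodes, List.mem_cons, List.mem_append] at hx
      rcases hx with rfl | hx | hx
      · exact Or.inl le_rfl
      · exact att_aux hD hty.symm (hlen g' hgG'.1) _ (fun i hi h => (hI i hi h).symm)
          (fun i hi j hj h h' => by rw [hD]; exact hn j hj i hi h' h) hx hx'
      · exact absurd hx hx'

end Pool.Agent.CellLind
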