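import Mathlib

/-!
Definitions for the first countable, regular, cellular-Lindelof space of cardinality c^+ .
-/

set_option autoImplicit false

namespace Pool.Agent.CellLind

/-- Binary trees with a block in `κ` and a norm in `ℕ` at each node. -/
inductive Ge (κ : Type) : Type
  | leaf : κ → ℕ → Ge κ
  | bin : κ → ℕ → Ge κ → Ge κ → Ge κ

namespace Ge

variable {κ : Type}

/-- block of the top node -/
def bl : Ge κ → κ
  | leaf b _ => b
  | bin b _ _ _ => b

/-- norm of the top node -/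
def nm : Ge κ → ℕ
  | leaf _ l => l
  | bin _ l _ _ => l

/-- the list of all subtrees, the tree itself first -/
def nodes : Ge κ → List (Ge κ)
  | leaf b l => [leaf b l]
  | bin b l x y => bin b l x y :: (nodes x ++ nodes y)

/-- forget the blocks -/
def shape : Ge κ → Ge Unit
  | leaf _ l => leaf () l
  | bin _ l x y => bin () l (shape x) (shape y)

/-- blocks decrease strictly from a tree to its children -/
def Good [LT κ] : Ge κ → Prop
  | leaf _ _ => True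
  | bin b _ x y => bl x < b ∧ bl y < b ∧ Good x ∧ Good y

/-- the `i`-th subtree (the tree itself if `i` is out of range) -/
def nd (g : Ge κ) (i : ℕ) : Ge κ := g.nodes.getD i g

/-- number of subtrees -/
def size (g : Ge κ) : ℕ := g.nodes.length

end Ge

open Ge

variable {κ : Type}

/-- `x` can be attached to `z` at level `n` -/
def Att (D : κ → κ → ℕ) (n : ℕ) (z x : Ge κ) : Prop :=
  n ≤ x.nm ∨ ∃ f ∈ z.nodes, x.nm = f.nm ∧ n ≤ D x.bl f.bl ∧
    ∀ f' ∈ z.nodes, f' ≠ f →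
      (D f'.bl x.bl = D f'.bl f.bl ∧ (x ∈ f'.nodes ↔ f ∈ f'.nodes)) ∨ n ≤ D f'.bl x.bl

/-- basic open set -/
def B [LT κ] (D : κ → κ → ℕ) (z : Ge κ) (n : ℕ) : Set (Ge κ) :=
  {h | h.Good ∧ z ∈ h.nodes ∧ ∀ x ∈ h.nodes, x ∉ z.nodes → Att D n z x}

/-- relation of two nodes -/
def rel (D : κ → κ → ℕ) (x y : Ge κ) : ℕ × Prop × Prop :=
  (D x.bl y.bl, x ∈ y.nodes, x = y)

/-- types of trees -/
abbrev Ty : Type := Ge Unit × (ℕ → ℕ → ℕ × Prop × Prop)

/-- type of a tree -/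
def ty (D : κ → κ → ℕ) (g : Ge κ) : Ty :=
  (g.shape, fun i j => rel D (g.nd i) (g.nd j))

/-- code of a tree -/
def cd (s : κ → κ → ℕ → Bool) (g : Ge κ) (i j : ℕ) : ℕ → Bool := s (g.nd i).bl (g.nd j).bl

/-- limit structures -/
structure Lim (κ : Type) where
  γ : κ
  τ : Ty
  r : ℕ → ℕ → ℕ → Bool
  A : ℕ → Prop

/-- `g` is `n`-near to the limit structure `e` -/
def Near (D : κ → κ → ℕ) (s : κ → κ → ℕ → Bool) (n : ℕ) (g : Ge κ) (e : Lim κ) : Prop :=
  g.bl = e.γ ∧ ty D g = e.τ ∧ (∀ i < n, ∀ j < n, ∀ k < n, cd s g i j k = e.r i j k) ∧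
    ∀ i < n, (cd s g 0 i = e.r 0 i ↔ e.A i)

/-- admissible limit structures -/
def Lim.Adm [LT κ] (D : κ → κ → ℕ) (s : κ → κ → ℕ → Bool) (e : Lim κ) : Prop :=
  (∃ i, ¬ e.A i) ∧ ∀ n, ∃ g : Ge κ, g.Good ∧ Near D s n g e

/-- neighbourhoods of limit structures, traced on the trees -/
def UU [LT κ] (D : κ → κ → ℕ) (s : κ → κ → ℕ → Bool) (e : Lim κ) (n : ℕ) : Set (Ge κ) :=
  {h | ∃ g : Ge κ, g.Good ∧ Near D s n g e ∧ h ∈ B D g n}

/-- The unboundedness property of the colouring `D`. -/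
def Unb [LinearOrder κ] (D : κ → κ → ℕ) : Prop :=
  ∀ (n p : ℕ) (a : κ → Fin p → κ), (∀ γ i, γ ≤ a γ i) →
    ∃ γ γ', ∀ i j, a γ i < a γ' j ∧ n ≤ D (a γ i) (a γ' j)

end Pool.Agent.CellLind
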