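import Mathlib
import Pool.Agent.Work.MP_898423_gt.Defs

/-!
An unbounded colouring of the pairs of a well-order of size larger than the continuum all of
whose initial segments have size at most the continuum.
-/

set_option autoImplicit false

open scoped Cardinal

namespace Pool.Agent.CellLind

section

variable {κ : Type} [LinearOrder κ] [WellFoundedLT κ]

omit [WellFoundedLT κ] in
/-- sets of size at most the continuum have strict upper bounds -/
theorem exists_strict_bound (h1 : ∀ γ : κ, #(Set.Iic γ) ≤ 𝔠) (h2 : ¬ #κ ≤ 𝔠)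
    (S : Set κ) (hS : #S ≤ 𝔠) : ∃ b, ∀ x ∈ S, x < b := by
  by_contra hcon
  push Not at hcon
  apply h2
  have hU : (Set.univ : Set κ) = ⋃ x : S, Set.Iic (x : κ) := by
    ext b
    simp only [Set.mem_univ, Set.mem_iUnion, Set.mem_Iic, true_iff]
    obtain ⟨x, hx, hb⟩ := hcon b
    exact ⟨⟨x, hx⟩, hb⟩
  rw [← Cardinal.mk_univ, hU]
  refine (Cardinal.mk_iUnion_le_sum_mk).trans ?_
  refine (Cardinal.sum_le_sum (fun x : S => #(Set.Iic (x : κ))) (fun _ => 𝔠)
    (fun x => h1 x)).trans ?_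
  rw [Cardinal.sum_const']
  exact (mul_le_mul' hS le_rfl).trans_eq Cardinal.continuum_mul_self

/-- the colouring determined by a choice of points -/
noncomputable def colour (pt : κ → κ → κ) : κ → κ → ℕ :=
  WellFounded.fix (wellFounded_lt : WellFounded ((· < ·) : κ → κ → Prop))
    (fun β ih ξ => if h : pt β ξ < β ∧ pt β ξ ≠ ξ then ih (pt β ξ) h.1 ξ + 1 else 0)

theorem colour_eq (pt : κ → κ → κ) (β ξ : κ) :
    colour pt β ξ = if pt β ξ < β ∧ pt β ξ ≠ ξ then colour pt (pt β ξ) ξ + 1 else 0 := by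
  unfold colour
  rw [WellFounded.fix_eq]
  by_cases h : pt β ξ < β ∧ pt β ξ ≠ ξ
  · rw [dif_pos h, if_pos h]
  · rw [dif_neg h, if_neg h]

/-- a recursive choice -/
theorem exists_rec (h1 : ∀ γ : κ, #(Set.Iic γ) ≤ 𝔠) (h2 : ¬ #κ ≤ 𝔠)
    {W : Type} [LinearOrder W] [WellFoundedLT W] (hW : #W ≤ 𝔠) {p : ℕ} (a : κ → Fin p → κ) :
    ∃ f : W → κ, ∀ w w', w < w' → ∀ i, a (f w) i < f w' := by
  have key : ∀ (w : W) (ih : ∀ w' : W, w' < w → κ),
      ∃ b, ∀ (w' : W) (h : w' < w) (i : Fin p), a (ih w' h) i < b := by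
    intro w ih
    let S : Set κ := Set.range (fun q : Set.Iio w × Fin p => a (ih q.1 q.1.2) q.2)
    have hS : #S ≤ 𝔠 := by
      refine Cardinal.mk_range_le.trans ?_
      rw [Cardinal.mk_prod]
      simp only [Cardinal.lift_id, Cardinal.mk_fin]
      calc #(Set.Iio w) * (p : Cardinal) ≤ 𝔠 * 𝔠 :=
            mul_le_mul' ((Cardinal.mk_set_le _).trans hW)
              ((Cardinal.nat_lt_continuum p).le)
        _ = 𝔠 := Cardinal.continuum_mul_self
    obtain ⟨b, hb⟩ := exists_strict_bound h1 h2 S hS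
    exact ⟨b, fun w' h i => hb _ ⟨(⟨w', h⟩, i), rfl⟩⟩
  choose b hb using key
  let f : W → κ := WellFounded.fix (wellFounded_lt : WellFounded ((· < ·) : W → W → Prop)) b
  refine ⟨f, fun w w' hww' i => ?_⟩
  have hf : f w' = b w' (fun y _ => f y) := by
    show WellFounded.fix _ b w' = _
    rw [WellFounded.fix_eq]
  rw [hf]
  exact hb w' (fun y _ => f y) w hww' i

end

/-- pigeonhole for well-orders -/
theorem exists_homog (θ : Type) [LinearOrder θ] [WellFoundedLT θ] (hθ : #θ ≤ 𝔠) (N : ℕ) :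
    ∃ (W : Type) (_ : LinearOrder W) (_ : WellFoundedLT W), #W ≤ 𝔠 ∧
      ∀ c : W → Fin N, ∃ (g : θ → W) (c0 : Fin N), StrictMono g ∧ ∀ t, c (g t) = c0 := by
  induction N with
  | zero =>
    refine ⟨Unit, inferInstance, inferInstance, ?_, ?_⟩
    · rw [Cardinal.mk_unit]
      exact (by simpa using (Cardinal.nat_lt_continuum 1).le)
    · intro c
      exact (c ()).elim0
  | succ N ih =>
    obtain ⟨W, i1, i2, hW, hc⟩ := ih
    refine ⟨θ ×ₗ W, inferInstance, inferInstance, ?_, ?_⟩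
    · have : #(θ ×ₗ W) = #θ * #W := by
        rw [show #(θ ×ₗ W) = #(θ × W) from rfl, Cardinal.mk_prod, Cardinal.lift_id,
          Cardinal.lift_id]
      rw [this]
      exact (mul_le_mul' hθ hW).trans_eq Cardinal.continuum_mul_self
    · intro c
      by_cases h : ∃ t, ∀ w, c (toLex (t, w)) ≠ Fin.last N
      · obtain ⟨t, ht⟩ := h
        obtain ⟨g, c0, hg, hgc⟩ := hc (fun w => (c (toLex (t, w))).castPred (ht w))
        refine ⟨fun s => toLex (t, g s), c0.castSucc, ?_, ?_⟩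
        · intro s s' hs
          rw [Prod.Lex.toLex_lt_toLex]
          exact Or.inr ⟨rfl, hg hs⟩
        · intro s
          rw [← hgc s]
          simp
      · push Not at h
        choose w hw using h
        refine ⟨fun s => toLex (s, w s), Fin.last N, ?_, hw⟩
        intro s s' hs
        rw [Prod.Lex.toLex_lt_toLex]
        exact Or.inl hs

section

variable {κ : Type} [LinearOrder κ] [WellFoundedLT κ]

/-- the colour classes have bounded type -/
theorem exists_types {M : Type} [LinearOrder M] [WellFoundedLT M] [Nonempty M] (hM : #M ≤ 𝔠)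
    (pt : κ → κ → κ) (idx : κ → κ → M)
    (hlt : ∀ β ξ, ξ < β → pt β ξ < β) (hle : ∀ β ξ, ξ < β → ξ ≤ pt β ξ)
    (hmono : ∀ β ξ ξ', ξ' < β → ξ ≤ ξ' → idx β ξ ≤ idx β ξ')
    (heq : ∀ β ξ ξ', ξ < β → ξ' < β → idx β ξ = idx β ξ' → pt β ξ = pt β ξ') (n : ℕ) :
    ∃ (W : Type) (_ : LinearOrder W) (_ : WellFoundedLT W), Nonempty W ∧ #W ≤ 𝔠 ∧
      ∀ k ≤ n, ∀ β : κ, ∃ f : κ → W, ∀ ξ ξ', ξ < ξ' → ξ' < β → colour pt β ξ = k →
        colour pt β ξ' = k → f ξ < f ξ' := by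
  have h0 : ∀ β ξ, ξ < β → colour pt β ξ = 0 → pt β ξ = ξ := by
    intro β ξ h hc
    rw [colour_eq] at hc
    by_contra hne
    rw [if_pos ⟨hlt β ξ h, hne⟩] at hc
    omega
  have hs : ∀ β ξ k, ξ < β → colour pt β ξ = k + 1 →
      ξ < pt β ξ ∧ colour pt (pt β ξ) ξ = k := by
    intro β ξ k h hc
    rw [colour_eq] at hc
    by_cases hne : pt β ξ < β ∧ pt β ξ ≠ ξ
    · rw [if_pos hne] at hc
      exact ⟨lt_of_le_of_ne (hle β ξ h) (Ne.symm hne.2), by omega⟩
    · rw [if_neg hne] at hc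
      omega
  have hz : ∀ β ξ ξ', ξ < ξ' → ξ' < β → colour pt β ξ = 0 → colour pt β ξ' = 0 →
      idx β ξ < idx β ξ' := by
    intro β ξ ξ' hlt' hβ hc hc'
    refine lt_of_le_of_ne (hmono β ξ ξ' hβ hlt'.le) fun he => ?_
    have h1 := heq β ξ ξ' (hlt'.trans hβ) hβ he
    rw [h0 β ξ (hlt'.trans hβ) hc, h0 β ξ' hβ hc'] at h1
    exact hlt'.ne h1
  induction n with
  | zero =>
    refine ⟨M, inferInstance, inferInstance, inferInstance, hM, ?_⟩
    intro k hk β
    obtain rfl : k = 0 := by omega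
    exact ⟨idx β, fun ξ ξ' h1 h2 h3 h4 => hz β ξ ξ' h1 h2 h3 h4⟩
  | succ n ih =>
    obtain ⟨W, i1, i2, hne, hW, hf⟩ := ih
    refine ⟨M ×ₗ W, inferInstance, inferInstance, inferInstance, ?_, ?_⟩
    · have : #(M ×ₗ W) = #M * #W := by
        rw [show #(M ×ₗ W) = #(M × W) from rfl, Cardinal.mk_prod, Cardinal.lift_id,
          Cardinal.lift_id]
      rw [this]
      exact (mul_le_mul' hM hW).trans_eq Cardinal.continuum_mul_self
    · intro k hk β
      rcases Nat.eq_zero_or_pos k with rfl | hkpos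
      · obtain ⟨w0⟩ := hne
        refine ⟨fun ξ => toLex (idx β ξ, w0), fun ξ ξ' h1 h2 h3 h4 => ?_⟩
        rw [Prod.Lex.toLex_lt_toLex]
        exact Or.inl (hz β ξ ξ' h1 h2 h3 h4)
      · obtain ⟨m, rfl⟩ : ∃ m, k = m + 1 := ⟨k - 1, by omega⟩
        choose f hf' using hf m (by omega)
        refine ⟨fun ξ => toLex (idx β ξ, f (pt β ξ) ξ), fun ξ ξ' h1 h2 h3 h4 => ?_⟩
        rw [Prod.Lex.toLex_lt_toLex]
        rcases lt_or_eq_of_le (hmono β ξ ξ' h2 h1.le) with hlt' | he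
        · exact Or.inl hlt'
        · refine Or.inr ⟨he, ?_⟩
          have hpt := heq β ξ ξ' (h1.trans h2) h2 he
          have a1 := hs β ξ m (h1.trans h2) h3
          have a2 := hs β ξ' m h2 h4
          rw [← hpt] at a2
          show f (pt β ξ) ξ < f (pt β ξ') ξ'
          rw [← hpt]
          exact hf' (pt β ξ) ξ ξ' h1 a2.1 a1.2 a2.2

omit [WellFoundedLT κ] in
/-- the existence of the choice of points -/
theorem exists_points (h1 : ∀ γ : κ, #(Set.Iic γ) ≤ 𝔠) :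
    ∃ (M : Type) (_ : LinearOrder M) (_ : WellFoundedLT M) (_ : Nonempty M), #M ≤ 𝔠 ∧
      ∃ (pt : κ → κ → κ) (idx : κ → κ → M),
        (∀ β ξ, ξ < β → pt β ξ < β) ∧ (∀ β ξ, ξ < β → ξ ≤ pt β ξ) ∧
        (∀ β ξ ξ', ξ' < β → ξ ≤ ξ' → idx β ξ ≤ idx β ξ') ∧
        (∀ β ξ ξ', ξ < β → ξ' < β → idx β ξ = idx β ξ' → pt β ξ = pt β ξ') := by
  classical
  let M : Type := (Cardinal.continuum : Cardinal.{0}).ord.ToType
  have hMc : #M = 𝔠 := Cardinal.mk_ord_toType _
  have hne : Nonempty M := by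
    rw [← Cardinal.mk_ne_zero_iff, hMc]
    exact Cardinal.continuum_ne_zero
  refine ⟨M, inferInstance, inferInstance, hne, hMc.le, ?_⟩
  have key : ∀ β : κ, ∃ g : M → κ, (∃ ξ, ξ < β) → (∀ i, g i < β) ∧ ∀ ξ, ξ < β → ∃ i, g i = ξ := by
    intro β
    by_cases hβ : ∃ ξ, ξ < β
    · obtain ⟨ξ0, hξ0⟩ := hβ
      have hc : #(Set.Iio β) ≤ #M := by
        rw [hMc]
        exact (Cardinal.mk_le_mk_of_subset Set.Iio_subset_Iic_self).trans (h1 β)
      obtain ⟨e⟩ := hc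
      have : Nonempty (Set.Iio β) := ⟨⟨ξ0, hξ0⟩⟩
      refine ⟨fun i => (Function.invFun e i : Set.Iio β), fun _ => ⟨fun i => ?_, fun ξ hξ => ?_⟩⟩
      · exact (Function.invFun e i).2
      · refine ⟨e ⟨ξ, hξ⟩, ?_⟩
        show ((Function.invFun e (e ⟨ξ, hξ⟩) : Set.Iio β) : κ) = ξ
        rw [Function.leftInverse_invFun e.injective]
    · exact ⟨fun _ => β, fun h => (hβ h).elim⟩
  choose g hg using key
  let S : κ → κ → Set M := fun β ξ => {i | ξ ≤ g β i}
  have hS : ∀ β ξ, ξ < β → (S β ξ).Nonempty := by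
    intro β ξ h
    obtain ⟨i, hi⟩ := (hg β ⟨ξ, h⟩).2 ξ h
    exact ⟨i, hi.ge⟩
  let wf : WellFounded ((· < ·) : M → M → Prop) := wellFounded_lt
  obtain ⟨m0⟩ := hne
  let idx : κ → κ → M := fun β ξ => if h : ξ < β then wf.min (S β ξ) (hS β ξ h) else wf.min Set.univ ⟨m0, trivial⟩
  have hidx : ∀ β ξ (h : ξ < β), idx β ξ = wf.min (S β ξ) (hS β ξ h) := by
    intro β ξ h
    exact dif_pos h
  refine ⟨fun β ξ => g β (idx β ξ), idx, ?_, ?_, ?_, ?_⟩
  · intro β ξ h
    exact (hg β ⟨ξ, h⟩).1 _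
  · intro β ξ h
    show ξ ≤ g β (idx β ξ)
    rw [hidx β ξ h]
    exact wf.min_mem (S β ξ) (hS β ξ h)
  · intro β ξ ξ' h hle
    rw [hidx β ξ (hle.trans_lt h), hidx β ξ' h]
    have hmem : wf.min (S β ξ') (hS β ξ' h) ∈ S β ξ := by
      have := wf.min_mem (S β ξ') (hS β ξ' h)
      exact hle.trans this
    exact not_lt.mp (wf.not_lt_min (S β ξ) hmem)
  · intro β ξ ξ' _ _ he
    show g β (idx β ξ) = g β (idx β ξ')
    rw [he]

theorem exists_unb
    (h1 : ∀ γ : κ, #(Set.Iic γ) ≤ 𝔠) (h2 : ¬ #κ ≤ 𝔠) :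
    ∃ D : κ → κ → ℕ, (∀ a b, D a b = D b a) ∧ Unb D := by
  obtain ⟨M, iM1, iM2, iM3, hM, pt, idx, hlt, hle, hmono, heq⟩ := exists_points h1
  refine ⟨fun a b => colour pt (max a b) (min a b), fun a b => ?_, ?_⟩
  · show colour pt (max a b) (min a b) = colour pt (max b a) (min b a)
    rw [max_comm, min_comm]
  intro n p a ha
  obtain ⟨W0, iW1, iW2, hW0ne, hW0, hF⟩ := exists_types hM pt idx hlt hle hmono heq n
  have : WellFoundedLT (WithTop W0) := inferInstance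
  have hθ : #(WithTop W0) ≤ 𝔠 := by
    have : #(WithTop W0) = #W0 + 1 := Cardinal.mk_option
    rw [this]
    exact Cardinal.add_le_of_le Cardinal.aleph0_le_continuum hW0 (by simpa using (Cardinal.nat_lt_continuum 1).le)
  have hno : ¬ ∃ u : WithTop W0 → W0, StrictMono u := by
    rintro ⟨u, hu⟩
    have hv : StrictMono (fun w : W0 => u (w : WithTop W0)) := fun x y hxy =>
      hu (WithTop.coe_lt_coe.mpr hxy)
    have h3 : u ⊤ ≤ u ((u ⊤ : W0) : WithTop W0) := hv.le_apply (x := u ⊤)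
    exact absurd (hu (WithTop.coe_lt_top (u ⊤))) (not_lt.mpr h3)
  obtain ⟨W, iA, iB, hW, hcol⟩ := exists_homog (WithTop W0) hθ (p * n)
  obtain ⟨f, hf⟩ := exists_rec h1 h2 hW a
  obtain ⟨γ', hγ'⟩ : ∃ b, ∀ x ∈ Set.range (fun q : W × Fin p => a (f q.1) q.2), x < b := by
    apply exists_strict_bound h1 h2
    refine Cardinal.mk_range_le.trans ?_
    rw [Cardinal.mk_prod]
    simp only [Cardinal.lift_id, Cardinal.mk_fin]
    calc #W * (p : Cardinal) ≤ 𝔠 * 𝔠 :=
          mul_le_mul' hW ((Cardinal.nat_lt_continuum p).le)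
      _ = 𝔠 := Cardinal.continuum_mul_self
  by_contra hcon
  push Not at hcon
  have hbad : ∀ w : W, ∃ (i j : Fin p), colour pt (a γ' j) (a (f w) i) < n := by
    intro w
    obtain ⟨i, j, hij⟩ := hcon (f w) γ'
    have hlt1 : a (f w) i < a γ' j := (hγ' _ ⟨(w, i), rfl⟩).trans_le (ha γ' j)
    have := hij hlt1
    rw [max_eq_right hlt1.le, min_eq_left hlt1.le] at this
    exact ⟨i, j, this⟩
  choose I J hIJ using hbad
  obtain ⟨g, c0, hg, hgc⟩ := hcol (fun w => finProdFinEquiv (J w, ⟨_, hIJ w⟩))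
  let q := finProdFinEquiv.symm c0
  have hq : ∀ t, J (g t) = q.1 ∧ colour pt (a γ' (J (g t))) (a (f (g t)) (I (g t))) = q.2 := by
    intro t
    have := congrArg finProdFinEquiv.symm (hgc t)
    rw [Equiv.symm_apply_apply] at this
    constructor
    · exact congrArg Prod.fst this
    · exact congrArg (fun z : Fin p × Fin n => (z.2 : ℕ)) this
  obtain ⟨F, hF'⟩ := hF q.2 q.2.2.le (a γ' q.1)
  apply hno
  refine ⟨fun t => F (a (f (g t)) (I (g t))), fun t t' htt' => ?_⟩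
  have e1 := hq t
  have e2 := hq t'
  refine hF' _ _ ?_ ?_ ?_ ?_
  · exact (hf _ _ (hg htt') _).trans_le (ha _ _)
  · exact (hγ' _ ⟨(g t', I (g t')), rfl⟩).trans_le (ha γ' _)
  · rw [← e1.1]; exact e1.2
  · rw [← e2.1]; exact e2.2

end

end Pool.Agent.CellLind
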